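import Pool.Agent.Lib_helper53.PIX.Abs

set_option autoImplicit false

namespace Pool.Agent.Lib_helper53.PIX

theorem tb_d_ge {C μ : ℕ} {P : ℕ → ℤ} {d : ℕ → ℕ} (hc : Chn C μ P d) (k : ℕ) : k + 1 ≤ d k := by
  induction k with
  | zero => exact hc.pos 0
  | succ n ih =>
    have := hc.lt n
    omega

theorem tb_pow {r C : ℕ} {d g u h : ℕ → ℕ} (hR : Rep r C d g u h) (k : ℕ) :
    r ^ (h k - u k) * r ^ (u k) = r ^ (h k) := by
  rw [← pow_add]
  congr 1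
  have := hR.uh k
  omega

theorem tb_v_large {r C μ K : ℕ} {P : ℕ → ℤ} {d g u h : ℕ → ℕ} (hr : 2 ≤ r) (hc : Chn C μ P d)
    (hR : Rep r C d g u h) (hu : ∀ k, u k ≤ K) (X k : ℕ) (hk : X * r ^ K ≤ k) :
    X < r ^ (h k - u k) := by
  have h1 := tb_pow hR k
  have h2 := hR.eq k
  have h3 := tb_d_ge hc k
  have h4 : r ^ u k ≤ r ^ K := Nat.pow_le_pow_right (by omega) (hu k)
  have h5 : 1 ≤ g k := hR.g1 k
  by_contra hX
  push Not at hX
  have h6 : r ^ (h k) ≤ X * r ^ K := by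
    rw [← h1]
    exact Nat.mul_le_mul hX h4
  have h7 : d k ≤ g k * d k := Nat.le_mul_of_pos_left _ h5
  omega

theorem tb_mbound {r C μ K : ℕ} {P : ℕ → ℤ} {d g u h : ℕ → ℕ} (hr : 2 ≤ r) (hc : Chn C μ P d)
    (hR : Rep r C d g u h) (hu : ∀ k, u k ≤ K) (k m : ℕ)
    (hm : h (k + 2) - u (k + 2) = m * (h (k + 1) - u (k + 1)) + (h k - u k))
    (hbig : C * C * (r ^ K) ^ μ + r ^ K < r ^ (h (k + 1) - u (k + 1))) : m ≤ μ := by
  by_contra hlt
  push Not at hlt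
  set S := r ^ (h (k + 1) - u (k + 1)) with hS
  have hr1 : 1 ≤ r := by omega
  have hS1 : 1 ≤ S := Nat.one_le_pow _ _ (by omega)
  have hpK : 1 ≤ r ^ K := Nat.one_le_pow _ _ (by omega)
  have h1 : S ^ (μ + 1) ≤ r ^ (h (k + 2)) := by
    calc S ^ (μ + 1) ≤ S ^ m := Nat.pow_le_pow_right hS1 hlt
      _ = r ^ (m * (h (k + 1) - u (k + 1))) := by rw [hS, ← pow_mul, mul_comm]
      _ ≤ r ^ (h (k + 2)) := by
        apply Nat.pow_le_pow_right hr1
        omega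
  have h2 : r ^ (h (k + 2)) ≤ C * (C * d (k + 1) ^ μ) + r ^ K := by
    rw [← hR.eq (k + 2)]
    have h3 : r ^ u (k + 2) ≤ r ^ K := Nat.pow_le_pow_right hr1 (hu _)
    have h4 : g (k + 2) * d (k + 2) ≤ C * (C * d (k + 1) ^ μ) :=
      Nat.mul_le_mul (hR.gC _) (hc.growth (k + 1))
    omega
  have h5 : d (k + 1) ≤ r ^ K * S := by
    have h6 : d (k + 1) ≤ g (k + 1) * d (k + 1) := Nat.le_mul_of_pos_left _ (hR.g1 _)
    have h7 := hR.eq (k + 1)
    have h8 := tb_pow hR (k + 1)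
    have h9 : r ^ u (k + 1) ≤ r ^ K := Nat.pow_le_pow_right hr1 (hu _)
    have h10 : r ^ (h (k + 1)) ≤ r ^ K * S := by
      rw [← h8, mul_comm]
      exact Nat.mul_le_mul_right _ h9
    omega
  have h11 : C * (C * d (k + 1) ^ μ) + r ^ K ≤ (C * C * (r ^ K) ^ μ + r ^ K) * S ^ μ := by
    have h12 : d (k + 1) ^ μ ≤ (r ^ K) ^ μ * S ^ μ := by
      rw [← mul_pow]
      exact Nat.pow_le_pow_left h5 _
    have h13 : 1 ≤ S ^ μ := Nat.one_le_pow _ _ hS1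
    calc C * (C * d (k + 1) ^ μ) + r ^ K
        ≤ C * (C * ((r ^ K) ^ μ * S ^ μ)) + r ^ K * S ^ μ := by
          apply Nat.add_le_add
          · exact Nat.mul_le_mul_left _ (Nat.mul_le_mul_left _ h12)
          · exact Nat.le_mul_of_pos_right _ h13
      _ = (C * C * (r ^ K) ^ μ + r ^ K) * S ^ μ := by ring
  have h14 : (C * C * (r ^ K) ^ μ + r ^ K) * S ^ μ < S * S ^ μ :=
    Nat.mul_lt_mul_of_pos_right hbig (pow_pos hS1 _)
  have h15 : S ^ (μ + 1) = S * S ^ μ := by ring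
  omega

/-- consequence of the relation: strict inequality -/
theorem tb_lt {A B a b : ℤ} (hB : 1 ≤ B) (ha : 1 ≤ a)
    (h2 : A * a * (b - 1) + a = B * b * (a - 1) + b) (hb : 1 ≤ b) : A * (b - 1) < B * b := by
  by_contra hcon
  push Not at hcon
  have h3 : B * b * a ≤ A * (b - 1) * a := mul_le_mul_of_nonneg_right hcon (by omega)
  have h4 : B * b * a - B * b + b - a ≥ B * b * a := by nlinarith
  have h5 : b ≤ B * b := by nlinarith
  nlinarith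

/-- equal multiplicities: `S < R` is impossible -/
theorem tb_core1 {N R S a b e n : ℤ} {m : ℕ} (hm : 1 ≤ m) (he1 : 1 ≤ e) (he : e ≤ N) (hS : 2 ≤ S)
    (ha : 1 ≤ a) (hb : 2 * N + 1 ≤ b)
    (h1 : e * (R - 1) = n * (S - 1))
    (h2 : R ^ m * a * (b - 1) + a = S ^ m * b * (a - 1) + b)
    (hlt : S < R) : False := by
  have hne : e + 1 ≤ n := by
    by_contra hcon
    have hne' : n ≤ e := by omega
    have h3 : n * (S - 1) ≤ e * (S - 1) := mul_le_mul_of_nonneg_right hne' (by omega)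
    nlinarith
  have h4 : (e + 1) * (S - 1) ≤ e * (R - 1) := by
    rw [h1]
    exact mul_le_mul_of_nonneg_right hne (by omega)
  have h5 : S - 1 ≤ e * (R - S) := by nlinarith
  have h6 : S - 1 ≤ N * (R - S) := le_trans h5 (mul_le_mul_of_nonneg_right he (by omega))
  have h7 : (2 * N + 1) * S ≤ 2 * N * R := by nlinarith
  have hSm : 1 ≤ S ^ m := one_le_pow₀ (by omega)
  have h8 := tb_lt hSm ha h2 (by omega)
  obtain ⟨j, rfl⟩ : ∃ j, m = j + 1 := ⟨m - 1, by omega⟩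
  have h9 : S ^ j ≤ R ^ j := pow_le_pow_left₀ (by omega) (le_of_lt hlt) j
  have hSj : 1 ≤ S ^ j := one_le_pow₀ (by omega)
  have h10 : (2 * N + 1) * S ^ (j + 1) ≤ 2 * N * R ^ (j + 1) := by
    have e1 : (2 * N + 1) * S ^ (j + 1) = ((2 * N + 1) * S) * S ^ j := by ring
    have e2 : 2 * N * R ^ (j + 1) = (2 * N * R) * R ^ j := by ring
    rw [e1, e2]
    apply mul_le_mul h7 h9 (by positivity)
    have : 0 ≤ 2 * N * R := by nlinarith
    exact this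
  have h11 : (2 * N + 1) * S ^ (j + 1) * (b - 1) ≤ 2 * N * R ^ (j + 1) * (b - 1) :=
    mul_le_mul_of_nonneg_right h10 (by omega)
  have h12 : 2 * N * (R ^ (j + 1) * (b - 1)) < 2 * N * (S ^ (j + 1) * b) :=
    mul_lt_mul_of_pos_left h8 (by omega)
  have h13 : S ^ (j + 1) * ((2 * N + 1) * (b - 1)) < S ^ (j + 1) * (2 * N * b) := by nlinarith
  have h14 : (2 * N + 1) * (b - 1) < 2 * N * b := lt_of_mul_lt_mul_left h13 (by omega)
  nlinarith

/-- different multiplicities are impossible -/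
theorem tb_core2 {N R S a b e n : ℤ} {m m' : ℕ} (hm : m' < m) (he1 : 1 ≤ e) (he : e ≤ N)
    (hn1 : 1 ≤ n) (hR : 1 ≤ R) (hS : 1 ≤ S)
    (ha : 1 ≤ a) (hb : 2 ≤ b) (h1 : e * (R - 1) = n * (S - 1))
    (h2 : R ^ m * a * (b - 1) + a = S ^ m' * b * (a - 1) + b)
    (hbig : 2 * N ^ m' ≤ R) : False := by
  have hSm : 1 ≤ S ^ m' := one_le_pow₀ hS
  have h8 := tb_lt hSm ha h2 (by omega)
  have h3 : S ≤ N * R := by
    have h4 : S - 1 ≤ n * (S - 1) := by nlinarith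
    have h5 : e * (R - 1) ≤ N * (R - 1) := mul_le_mul_of_nonneg_right he (by omega)
    nlinarith
  have h4 : S ^ m' ≤ N ^ m' * R ^ m' := by
    rw [← mul_pow]
    exact pow_le_pow_left₀ (by omega) h3 _
  have h5 : S ^ m' * b ≤ 2 * S ^ m' * (b - 1) := by nlinarith
  have h6 : R ^ m < 2 * S ^ m' := by
    have : R ^ m * (b - 1) < 2 * S ^ m' * (b - 1) := lt_of_lt_of_le h8 h5
    exact lt_of_mul_lt_mul_right this (by omega)
  obtain ⟨j, rfl⟩ : ∃ j, m = m' + 1 + j := ⟨m - (m' + 1), by omega⟩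
  have hRj : 1 ≤ R ^ j := one_le_pow₀ hR
  have hRm : 1 ≤ R ^ m' := one_le_pow₀ hR
  have h7 : R ^ m' * R ≤ R ^ (m' + 1 + j) := by
    have : R ^ (m' + 1 + j) = R ^ m' * R * R ^ j := by ring
    rw [this]
    exact le_mul_of_one_le_right (by positivity) hRj
  have h9 : R ^ m' * R < R ^ m' * (2 * N ^ m') := by
    calc R ^ m' * R ≤ R ^ (m' + 1 + j) := h7
      _ < 2 * S ^ m' := h6
      _ ≤ 2 * (N ^ m' * R ^ m') := by omega
      _ = R ^ m' * (2 * N ^ m') := by ring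
  have h10 : R < 2 * N ^ m' := lt_of_mul_lt_mul_left h9 (by omega)
  omega

/-- Symmetric summary. -/
theorem tb_core {N R S a b e n : ℤ} {M m m' : ℕ} (hm1 : 1 ≤ m) (hm1' : 1 ≤ m')
    (hM : m ≤ M) (hM' : m' ≤ M)
    (he1 : 1 ≤ e) (he : e ≤ N) (hn1 : 1 ≤ n) (hn : n ≤ N) (ha : 2 * N + 1 ≤ a)
    (hb : 2 * N + 1 ≤ b) (h1 : e * (R - 1) = n * (S - 1))
    (h2 : R ^ m * a * (b - 1) + a = S ^ m' * b * (a - 1) + b)
    (hR : 2 * N ^ M ≤ R) (hS : 2 * N ^ M ≤ S) : R = S := by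
  have hN : 1 ≤ N := le_trans he1 he
  have hNM : 1 ≤ N ^ M := one_le_pow₀ hN
  have hNm : N ^ m ≤ N ^ M := pow_le_pow_right₀ hN hM
  have hNm' : N ^ m' ≤ N ^ M := pow_le_pow_right₀ hN hM'
  have h2' : S ^ m' * b * (a - 1) + b = R ^ m * a * (b - 1) + a := h2.symm
  rcases lt_trichotomy m m' with h | h | h
  · exact (tb_core2 h hn1 hn he1 (by omega) (by omega) (by omega) (by omega) h1.symm h2'
      (by omega)).elim
  · subst h
    rcases lt_trichotomy R S with hh | hh | hh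
    · exact (tb_core1 hm1 hn1 hn (by omega) (by omega) ha h1.symm h2' hh).elim
    · exact hh
    · exact (tb_core1 hm1 he1 he (by omega) (by omega) hb h1 h2 hh).elim
  · exact (tb_core2 h he1 he hn1 (by omega) (by omega) (by omega) (by omega) h1 h2
      (by omega)).elim

/-- The basic relation between the two representations. -/
theorem tb_rel {r s C : ℕ} {d g u h g' u' h' : ℕ → ℕ} (hR : Rep r C d g u h)
    (hR' : Rep s C d g' u' h') (k : ℕ) :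
    ((g' k : ℤ) * (r : ℤ) ^ u k) * ((r : ℤ) ^ (h k - u k) - 1) =
      ((g k : ℤ) * (s : ℤ) ^ u' k) * ((s : ℤ) ^ (h' k - u' k) - 1) := by
  have h1 : (g k : ℤ) * d k + (r : ℤ) ^ u k = (r : ℤ) ^ h k := by exact_mod_cast hR.eq k
  have h2 : (g' k : ℤ) * d k + (s : ℤ) ^ u' k = (s : ℤ) ^ h' k := by exact_mod_cast hR'.eq k
  have h3 : (r : ℤ) ^ (h k - u k) * (r : ℤ) ^ u k = (r : ℤ) ^ h k := by
    exact_mod_cast tb_pow hR k
  have h4 : (s : ℤ) ^ (h' k - u' k) * (s : ℤ) ^ u' k = (s : ℤ) ^ h' k := by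
    exact_mod_cast tb_pow hR' k
  linear_combination (g' k : ℤ) * h3 - (g k : ℤ) * h4 - (g' k : ℤ) * h1 + (g k : ℤ) * h2

/-- Block TB -/
theorem two_bases {r s C μ : ℕ} {P : ℕ → ℤ} {d g u h g' u' h' : ℕ → ℕ} (hr : 2 ≤ r)
    (hs : 2 ≤ s) (hind : ∀ x y : ℕ, 1 ≤ x → 1 ≤ y → r ^ x ≠ s ^ y) (hc : Chn C μ P d)
    (hR : Rep r C d g u h) (hR' : Rep s C d g' u' h') {K : ℕ} (hu : ∀ k, u k ≤ K)
    (hu' : ∀ k, u' k ≤ K) {k₀ : ℕ} (h3 : ∀ k, k₀ ≤ k → TT r P d g u h k)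
    (h3' : ∀ k, k₀ ≤ k → TT s P d g' u' h' k) : False := by
  have hr1 : 1 ≤ r := by omega
  have hs1 : 1 ≤ s := by omega
  set N : ℕ := C * (r ^ K * s ^ K) with hN
  set X : ℕ := (2 * N + 1) + 2 * N ^ μ + (C * C * (r ^ K) ^ μ + r ^ K) +
    (C * C * (s ^ K) ^ μ + s ^ K) with hX
  set k : ℕ := k₀ + X * r ^ K + X * s ^ K with hk
  have hrK : 1 ≤ r ^ K := Nat.one_le_pow _ _ hr1
  have hsK : 1 ≤ s ^ K := Nat.one_le_pow _ _ hs1
  have hX1 : X * r ^ K ≤ k := by omega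
  have hX2 : X * s ^ K ≤ k := by omega
  have a1 := tb_v_large hr hc hR hu X k hX1
  have b1 := tb_v_large hs hc hR' hu' X k hX2
  have a2 := tb_v_large hr hc hR hu X (k + 1) (by omega)
  have b2 := tb_v_large hs hc hR' hu' X (k + 1) (by omega)
  obtain ⟨⟨m, hm1, hm⟩, ht⟩ := h3 k (by omega)
  obtain ⟨⟨m', hm1', hm'⟩, ht'⟩ := h3' k (by omega)
  have hmμ : m ≤ μ := tb_mbound hr hc hR hu k m hm (by omega)
  have hmμ' : m' ≤ μ := tb_mbound hs hc hR' hu' k m' hm' (by omega)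
  have r0 := tb_rel hR hR' k
  have r1 := tb_rel hR hR' (k + 1)
  have r2 := tb_rel hR hR' (k + 2)
  have hD0 := hc.det_ne k
  have hD1 := hc.det_ne (k + 1)
  set D0 : ℤ := P (k + 1) * d k - P k * d (k + 1) with hD0'
  have hD1' : P (k + 2) * d (k + 1) - P (k + 1) * d (k + 2) ≠ 0 := hD1
  set D1 : ℤ := P (k + 2) * d (k + 1) - P (k + 1) * d (k + 2) with hD1''
  -- bounds for the coefficients
  have hb : ∀ j, (1 : ℤ) ≤ (g' j : ℤ) * (r : ℤ) ^ u j ∧ (g' j : ℤ) * (r : ℤ) ^ u j ≤ N := by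
    intro j
    have q1 : 1 ≤ g' j * r ^ u j := Nat.mul_pos (hR'.g1 j) (pow_pos (by omega) _)
    have q2 : g' j * r ^ u j ≤ C * (r ^ K * s ^ K) := by
      apply Nat.mul_le_mul (hR'.gC j)
      calc r ^ u j ≤ r ^ K := Nat.pow_le_pow_right hr1 (hu j)
        _ ≤ r ^ K * s ^ K := Nat.le_mul_of_pos_right _ hsK
    exact ⟨by exact_mod_cast q1, by rw [hN]; exact_mod_cast q2⟩
  have hb' : ∀ j, (1 : ℤ) ≤ (g j : ℤ) * (s : ℤ) ^ u' j ∧ (g j : ℤ) * (s : ℤ) ^ u' j ≤ N := by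
    intro j
    have q1 : 1 ≤ g j * s ^ u' j := Nat.mul_pos (hR.g1 j) (pow_pos (by omega) _)
    have q2 : g j * s ^ u' j ≤ C * (r ^ K * s ^ K) := by
      apply Nat.mul_le_mul (hR.gC j)
      calc s ^ u' j ≤ s ^ K := Nat.pow_le_pow_right hs1 (hu' j)
        _ ≤ r ^ K * s ^ K := Nat.le_mul_of_pos_left _ hrK
    exact ⟨by exact_mod_cast q1, by rw [hN]; exact_mod_cast q2⟩
  -- the ratios at k and k+2 agree
  have hrho : ((g k : ℤ) * (s : ℤ) ^ u' k) * ((g' (k + 2) : ℤ) * (r : ℤ) ^ u (k + 2)) =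
      ((g (k + 2) : ℤ) * (s : ℤ) ^ u' (k + 2)) * ((g' k : ℤ) * (r : ℤ) ^ u k) := by
    have hne : D0 * D1 ≠ 0 := mul_ne_zero hD0 hD1'
    apply mul_left_cancel₀ hne
    linear_combination (D1 * (g' (k + 2) : ℤ) * (s : ℤ) ^ u' k) * ht -
      (D1 * (g (k + 2) : ℤ) * (r : ℤ) ^ u k) * ht'
  -- powers at k+2
  have p2 : (r : ℤ) ^ (h (k + 2) - u (k + 2)) =
      ((r : ℤ) ^ (h (k + 1) - u (k + 1))) ^ m * (r : ℤ) ^ (h k - u k) := by
    rw [hm, pow_add, ← pow_mul, mul_comm m]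
  have p2' : (s : ℤ) ^ (h' (k + 2) - u' (k + 2)) =
      ((s : ℤ) ^ (h' (k + 1) - u' (k + 1))) ^ m' * (s : ℤ) ^ (h' k - u' k) := by
    rw [hm', pow_add, ← pow_mul, mul_comm m']
  rw [p2, p2'] at r2
  have c1 : ((X : ℕ) : ℤ) < (r : ℤ) ^ (h k - u k) := by exact_mod_cast a1
  have c2 : ((X : ℕ) : ℤ) < (s : ℤ) ^ (h' k - u' k) := by exact_mod_cast b1
  have c3 : ((X : ℕ) : ℤ) < (r : ℤ) ^ (h (k + 1) - u (k + 1)) := by exact_mod_cast a2
  have c4 : ((X : ℕ) : ℤ) < (s : ℤ) ^ (h' (k + 1) - u' (k + 1)) := by exact_mod_cast b2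
  have hXZ : ((2 * (N : ℤ) + 1) + 2 * (N : ℤ) ^ μ ≤ (X : ℤ)) := by
    have : (2 * N + 1) + 2 * N ^ μ ≤ X := by omega
    exact_mod_cast this
  have hNpos : (0 : ℤ) ≤ 2 * (N : ℤ) ^ μ := by positivity
  have hNpos' : (0 : ℤ) ≤ 2 * (N : ℤ) + 1 := by positivity
  generalize (r : ℤ) ^ (h k - u k) = a at r0 r2 c1
  generalize (s : ℤ) ^ (h' k - u' k) = b at r0 r2 c2
  have hRS : (r : ℤ) ^ (h (k + 1) - u (k + 1)) = (s : ℤ) ^ (h' (k + 1) - u' (k + 1)) := by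
    generalize (r : ℤ) ^ (h (k + 1) - u (k + 1)) = R at r1 r2 c3
    generalize (s : ℤ) ^ (h' (k + 1) - u' (k + 1)) = S at r1 r2 c4
    have key : R ^ m * a * (b - 1) + a = S ^ m' * b * (a - 1) + b := by
      have hne : ((g k : ℤ) * (s : ℤ) ^ u' k) * ((g' (k + 2) : ℤ) * (r : ℤ) ^ u (k + 2)) ≠ 0 :=
        mul_ne_zero (by have := (hb' k).1; omega) (by have := (hb (k + 2)).1; omega)
      have e1 : (R ^ m * a - 1) * (b - 1) = (S ^ m' * b - 1) * (a - 1) := by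
        apply mul_left_cancel₀ hne
        linear_combination ((g k : ℤ) * (s : ℤ) ^ u' k * (b - 1)) * r2 -
          ((g (k + 2) : ℤ) * (s : ℤ) ^ u' (k + 2) * (S ^ m' * b - 1)) * r0 -
          ((S ^ m' * b - 1) * (a - 1)) * hrho
      linear_combination e1
    exact tb_core hm1 hm1' hmμ hmμ' (hb (k + 1)).1 (hb (k + 1)).2 (hb' (k + 1)).1 (hb' (k + 1)).2
      (by omega) (by omega) r1 key (by omega) (by omega)
  have hfin : r ^ (h (k + 1) - u (k + 1)) = s ^ (h' (k + 1) - u' (k + 1)) := by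
    exact_mod_cast hRS
  exact hind _ _ (by have := hR.uh (k + 1); omega) (by have := hR'.uh (k + 1); omega) hfin

end Pool.Agent.Lib_helper53.PIX
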